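import Pool.Agent.H41.XF.Nea

/-!
# ROB => DIM, chapter X: limits of lifts (copy of H43/UB/LLM for limit systems without gap discs)

`llm`. `w = H q`, `hs : Gd w s`. `gb` at `(w, s)` (small `ρ`): `z n := G n (Hn n q)` (`Hn n q → w`): `z n ∈ D n`, `F n (z n) = Hn n q`, `z n → s`. `h.lift` (bound `M`): lifts `Q n` on `S` with `Q n q = z n`.
`A = {u ∈ S | ∃ r > 0, ball u r ⊆ S, ∃ Qu differentiable on ball u r, Q n → Qu locally uniformly on ball u r, and ∀ v ∈ ball u r, Gd (H v) (Qu v)}`. `A` is open. STEP: if `u1 ∈ S`, `Q n u1 → s1`, `Gd (H u1) s1`, `ball u1 t ⊆ S`, `H '' ball u1 t ⊆ ball (H u1) (ρ1 / 2)`, `closedBall (H u1) ρ1` disjoint from `Ph`: `gb`: `G1 n → g1`; on `ball u1 (t / 2)` for almost all `n`: `Hn n v ∈ ball (H u1) ρ1` (uniform convergence on the compact ball), `G1 n (Hn n v)` is a lift of `Hn n`, it agrees with `Q n` at `u1` (`uq`: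 both tend to `s1`, same value `Hn n u1`), so on the ball (`lift_eq`, `hH'`); so `Q n v = G1 n (Hn n v) → g1 (H v)` locally uniformly. So `ball u1 (t / 2) ⊆ A`.
`q ∈ A` by STEP. CLOSED in `S`: `u ∈ S` a limit of points of `A`: `H` is continuous at `u`, `Ph` closed: one `ρ1` and one `t` serve for all `u1 ∈ A` near `u`; STEP at such a `u1` with `‖u - u1‖ < t / 2`. `S` is preconnected (convex): `A = S`. Glue the local limits: the pointwise limit `Q` (`Tendsto` is unique), `TendstoLocallyUniformlyOn` and differentiability are local.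
-/

set_option autoImplicit false

open Filter Topology Metric Set MeasureTheory

namespace Pool.Agent.H15.TY

open Pool.Agent.H56.UD
open Pool.Agent.H43.UB (ph_closed lift_eq)
open Pool.Agent.H64.XL (LT)
open Pool.Agent.H41.XF (gb uq)

variable {𝒰 : Ultrafilter ℕ} {F : ℕ → ℂ → ℂ} {D P : ℕ → Set ℂ}

private theorem cc_of {Fn : ℕ → ℂ → ℂ} {f : ℂ → ℂ} {l : Filter ℕ} {T : Set ℂ} (h : TendstoLocallyUniformlyOn Fn f l T)
    (hf : ContinuousOn f T) {x : ℂ} (hx : x ∈ T) :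
    Tendsto (fun q : ℕ × ℂ => Fn q.1 q.2) (l ×ˢ 𝓝[T] x) (𝓝 (f x)) := by
  have h1 := tendstoUniformlyOnFilter_iff_tendsto.1 (tendstoLocallyUniformlyOn_iff_filter.1 h x hx)
  have h2 : Tendsto (fun q : ℕ × ℂ => f q.2) (l ×ˢ 𝓝[T] x) (𝓝 (f x)) := (hf x hx).tendsto.comp tendsto_snd
  exact h2.congr_uniformity h1

private theorem of_cc {Fn : ℕ → ℂ → ℂ} {f : ℂ → ℂ} {l : Filter ℕ} {T : Set ℂ} (hf : ContinuousOn f T)
    (h : ∀ x ∈ T, Tendsto (fun q : ℕ × ℂ => Fn q.1 q.2) (l ×ˢ 𝓝[T] x) (𝓝 (f x))) :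
    TendstoLocallyUniformlyOn Fn f l T := by
  refine tendstoLocallyUniformlyOn_iff_filter.2 fun x hx => tendstoUniformlyOnFilter_iff_tendsto.2 ?_
  have h2 : Tendsto (fun q : ℕ × ℂ => f q.2) (l ×ˢ 𝓝[T] x) (𝓝 (f x)) := (hf x hx).tendsto.comp tendsto_snd
  exact (h2.prodMk_nhds (h x hx)).mono_right (nhds_le_uniformity _)

private theorem step (h : LT 𝒰 F D P) {S : Set ℂ} (So : IsOpen S) {Hn : ℕ → ℂ → ℂ} {H : ℂ → ℂ}
    (hHn : ∀ᶠ n in (𝒰 : Filter ℕ), DifferentiableOn ℂ (Hn n) S ∧ ∀ u ∈ S, deriv (Hn n) u ≠ 0)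
    (hH : TendstoLocallyUniformlyOn Hn H (𝒰 : Filter ℕ) S) (Hd : DifferentiableOn ℂ H S) {Q : ℕ → ℂ → ℂ}
    (hQ : ∀ᶠ n in (𝒰 : Filter ℕ), DifferentiableOn ℂ (Q n) S ∧ ∀ u ∈ S, Q n u ∈ D n ∧ F n (Q n u) = Hn n u)
    {u1 s1 : ℂ} {t ρ1 : ℝ} (ht : 0 < t) (hρ : 0 < ρ1) (hb : ball u1 t ⊆ S)
    (hHb : ∀ v ∈ ball u1 t, ‖H v - H u1‖ < ρ1 / 2) (hdis : Disjoint (closedBall (H u1) ρ1) (Ph 𝒰 P))
    (hs1 : Gd 𝒰 F D P (H u1) s1) (hQs : Tendsto (fun n => Q n u1) (𝒰 : Filter ℕ) (𝓝 s1)) :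
    ∃ Qu : ℂ → ℂ, DifferentiableOn ℂ Qu (ball u1 (t / 2)) ∧
      TendstoLocallyUniformlyOn Q Qu (𝒰 : Filter ℕ) (ball u1 (t / 2)) ∧
      ∀ v ∈ ball u1 (t / 2), Gd 𝒰 F D P (H v) (Qu v) := by
  obtain ⟨G1, g1, hG1, hG1u, _, hg1d, _, hg1w, hg1⟩ := gb h hs1 hρ hdis
  have hBt : closedBall u1 (t / 2) ⊆ ball u1 t := closedBall_subset_ball (by linarith)
  have hBB : ball u1 (t / 2) ⊆ closedBall u1 (t / 2) := ball_subset_closedBall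
  have hBS : ball u1 (t / 2) ⊆ S := hBB.trans (hBt.trans hb)
  have hu1 : u1 ∈ ball u1 (t / 2) := mem_ball_self (by linarith)
  have hK : TendstoUniformlyOn Hn H (𝒰 : Filter ℕ) (closedBall u1 (t / 2)) :=
    (tendstoLocallyUniformlyOn_iff_forall_isCompact So).1 hH _ (hBt.trans hb) (isCompact_closedBall _ _)
  have hmap : ∀ v ∈ closedBall u1 (t / 2), H v ∈ ball (H u1) ρ1 := by
    intro v hv
    rw [mem_ball, dist_eq_norm]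
    linarith [hHb v (hBt hv)]
  have e1 : ∀ᶠ n in (𝒰 : Filter ℕ), ∀ v ∈ closedBall u1 (t / 2), Hn n v ∈ ball (H u1) ρ1 := by
    rw [Metric.tendstoUniformlyOn_iff] at hK
    filter_upwards [hK (ρ1 / 2) (by linarith)] with n hn v hv
    have h1 := hn v hv
    have h2 := hHb v (hBt hv)
    rw [mem_ball]
    calc dist (Hn n v) (H u1) ≤ dist (Hn n v) (H v) + dist (H v) (H u1) := dist_triangle _ _ _
      _ < ρ1 / 2 + ρ1 / 2 := by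
        rw [dist_comm (Hn n v), dist_eq_norm (H v) (H u1)]
        linarith
      _ = ρ1 := by ring
  have hHcB : ContinuousOn H (ball u1 (t / 2)) := Hd.continuousOn.mono hBS
  have cc : ∀ v ∈ ball u1 (t / 2), Tendsto (fun q : ℕ × ℂ => G1 q.1 (Hn q.1 q.2))
      ((𝒰 : Filter ℕ) ×ˢ 𝓝[ball u1 (t / 2)] v) (𝓝 (g1 (H v))) := by
    intro v hv
    have hHv := hmap v (hBB hv)
    have c1 := cc_of hG1u hg1d.continuousOn hHv
    have c2 := cc_of (hH.mono hBS) hHcB hv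
    rw [isOpen_ball.nhdsWithin_eq hHv] at c1
    exact c1.comp (tendsto_fst.prodMk c2)
  have hz' : Tendsto (fun n => G1 n (Hn n u1)) (𝒰 : Filter ℕ) (𝓝 s1) := by
    have c1 := cc u1 hu1
    rw [hg1w] at c1
    have c2 : Tendsto (fun n : ℕ => (n, u1)) (𝒰 : Filter ℕ) ((𝒰 : Filter ℕ) ×ˢ 𝓝[ball u1 (t / 2)] u1) := by
      rw [isOpen_ball.nhdsWithin_eq hu1]
      exact tendsto_id.prodMk tendsto_const_nhds
    exact c1.comp c2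
  have e2 : ∀ᶠ n in (𝒰 : Filter ℕ), Q n u1 = G1 n (Hn n u1) := by
    refine uq h hs1 hQs hz' ?_
    filter_upwards [hQ, hG1, e1] with n hn hn1 hn2
    rw [(hn.2 u1 (hBS hu1)).2, (hn1.2 _ (hn2 u1 (hBB hu1))).2]
  have e3 : ∀ᶠ n in (𝒰 : Filter ℕ), EqOn (Q n) (fun v => G1 n (Hn n v)) (ball u1 (t / 2)) := by
    filter_upwards [hQ, hG1, e1, e2, hHn] with n hq hg h1 h2 h3
    exact lift_eq (h.Do n) (h.Fd n) isOpen_ball (convex_ball _ _).isPreconnected (hq.1.mono hBS)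
      (hg.1.comp (h3.1.mono hBS) fun v hv => h1 v (hBB hv)) (fun v hv => hq.2 v (hBS hv))
      (fun v hv => hg.2 _ (h1 v (hBB hv))) (fun v hv => h3.2 v (hBS hv)) hu1 h2
  have hdc : DifferentiableOn ℂ (fun v => g1 (H v)) (ball u1 (t / 2)) :=
    hg1d.comp (Hd.mono hBS) fun v hv => hmap v (hBB hv)
  refine ⟨fun v => g1 (H v), hdc, of_cc hdc.continuousOn fun v hv => ?_, fun v hv => hg1 _ (hmap v (hBB hv))⟩
  refine (cc v hv).congr' ?_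
  have e4 : ∀ᶠ q in (𝒰 : Filter ℕ) ×ˢ 𝓝[ball u1 (t / 2)] v,
      EqOn (Q q.1) (fun v => G1 q.1 (Hn q.1 v)) (ball u1 (t / 2)) := e3.prod_inl _
  have e5' : ∀ᶠ y in 𝓝[ball u1 (t / 2)] v, y ∈ ball u1 (t / 2) := eventually_mem_nhdsWithin
  have e5 : ∀ᶠ q in (𝒰 : Filter ℕ) ×ˢ 𝓝[ball u1 (t / 2)] v, q.2 ∈ ball u1 (t / 2) := e5'.prod_inr _
  filter_upwards [e4, e5] with q hq1 hq2
  exact (hq1 hq2).symm

private theorem data {S : Set ℂ} (So : IsOpen S) {H : ℂ → ℂ} (Hd : DifferentiableOn ℂ H S)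
    (hoff : ∀ u ∈ S, H u ∉ Ph 𝒰 P) {u : ℂ} (hu : u ∈ S) :
    ∃ t ρ1 : ℝ, 0 < t ∧ 0 < ρ1 ∧ ∀ u1 ∈ ball u t, ball u1 t ⊆ S ∧ (∀ v ∈ ball u1 t, ‖H v - H u1‖ < ρ1 / 2) ∧
      Disjoint (closedBall (H u1) ρ1) (Ph 𝒰 P) := by
  obtain ⟨ρ2, hρ2, hρ2s⟩ := Metric.isOpen_iff.1 (ph_closed (𝒰 := 𝒰) (P := P)).isOpen_compl (H u) (hoff u hu)
  obtain ⟨t1, ht1, ht1s⟩ := Metric.isOpen_iff.1 So u hu
  have hc : ContinuousAt H u := Hd.continuousOn.continuousAt (So.mem_nhds hu)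
  obtain ⟨t2, ht2, ht2s⟩ := Metric.continuousAt_iff.1 hc (ρ2 / 8) (by linarith)
  refine ⟨min t1 t2 / 2, ρ2 / 2, by positivity, by linarith, fun u1 hu1 => ?_⟩
  have hm1 : min t1 t2 ≤ t1 := min_le_left _ _
  have hm2 : min t1 t2 ≤ t2 := min_le_right _ _
  have hm0 : 0 < min t1 t2 := lt_min ht1 ht2
  rw [mem_ball] at hu1
  have hsub : ∀ v ∈ ball u1 (min t1 t2 / 2), dist v u < min t1 t2 := by
    intro v hv
    rw [mem_ball] at hv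
    linarith [dist_triangle v u1 u]
  have hH1 : dist (H u1) (H u) < ρ2 / 8 := ht2s (by linarith)
  refine ⟨fun v hv => ht1s (by rw [mem_ball]; linarith [hsub v hv]), fun v hv => ?_, ?_⟩
  · have h3 : dist (H v) (H u) < ρ2 / 8 := ht2s (by linarith [hsub v hv])
    rw [← dist_eq_norm]
    linarith [dist_triangle_right (H v) (H u1) (H u)]
  · rw [Set.disjoint_left]
    intro w hw hwP
    refine hρ2s ?_ hwP
    rw [mem_closedBall] at hw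
    rw [mem_ball]
    linarith [dist_triangle w (H u1) (H u)]

/-- limits of given lifts -/
theorem llm_of (h : LT 𝒰 F D P) {S : Set ℂ} (Sc : Convex ℝ S) (So : IsOpen S) {Hn : ℕ → ℂ → ℂ} {H : ℂ → ℂ}
    (hHn : ∀ᶠ n in (𝒰 : Filter ℕ), DifferentiableOn ℂ (Hn n) S ∧ ∀ u ∈ S, deriv (Hn n) u ≠ 0)
    (hH : TendstoLocallyUniformlyOn Hn H (𝒰 : Filter ℕ) S) (hoff : ∀ u ∈ S, H u ∉ Ph 𝒰 P) {Q : ℕ → ℂ → ℂ}
    (hQ : ∀ᶠ n in (𝒰 : Filter ℕ), DifferentiableOn ℂ (Q n) S ∧ ∀ u ∈ S, Q n u ∈ D n ∧ F n (Q n u) = Hn n u)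
    {q s : ℂ} (hq : q ∈ S) (hs : Gd 𝒰 F D P (H q) s) (hQs : Tendsto (fun n => Q n q) (𝒰 : Filter ℕ) (𝓝 s)) :
    ∃ Q0 : ℂ → ℂ, DifferentiableOn ℂ Q0 S ∧ TendstoLocallyUniformlyOn Q Q0 (𝒰 : Filter ℕ) S ∧ Q0 q = s ∧
      ∀ u ∈ S, Gd 𝒰 F D P (H u) (Q0 u) := by
  have Hd : DifferentiableOn ℂ H S :=
    hH.differentiableOn (hHn.mono fun n hn => hn.1) So
  set A : Set ℂ := {u | ∃ s1, Tendsto (fun n => Q n u) (𝒰 : Filter ℕ) (𝓝 s1) ∧ Gd 𝒰 F D P (H u) s1} with hA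
  have key : ∀ u ∈ S, ∃ t : ℝ, 0 < t ∧ ∀ u1 ∈ ball u t, u1 ∈ A → ∃ Qu : ℂ → ℂ, DifferentiableOn ℂ Qu (ball u t) ∧
      TendstoLocallyUniformlyOn Q Qu (𝒰 : Filter ℕ) (ball u t) ∧ ∀ v ∈ ball u t, Gd 𝒰 F D P (H v) (Qu v) := by
    intro u hu
    obtain ⟨t, ρ1, ht, hρ1, hd⟩ := data (𝒰 := 𝒰) (P := P) So Hd hoff hu
    refine ⟨t / 4, by linarith, fun u1 hu1 hu1A => ?_⟩
    obtain ⟨s1, hs1, hs2⟩ := hu1A
    have hu1' : u1 ∈ ball u t := ball_subset_ball (by linarith) hu1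
    obtain ⟨hb, hHb, hdis⟩ := hd u1 hu1'
    obtain ⟨Qu, h1, h2, h3⟩ := step h So hHn hH Hd hQ ht hρ1 hb hHb hdis hs2 hs1
    have hsub : ball u (t / 4) ⊆ ball u1 (t / 2) := by
      intro v hv
      rw [mem_ball] at hv hu1 ⊢
      linarith [dist_triangle_right v u1 u]
    exact ⟨Qu, h1.mono hsub, h2.mono hsub, fun v hv => h3 v (hsub hv)⟩
  have hlim : ∀ {B : Set ℂ} {Qu : ℂ → ℂ}, TendstoLocallyUniformlyOn Q Qu (𝒰 : Filter ℕ) B → ∀ v ∈ B,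
      Tendsto (fun n => Q n v) (𝒰 : Filter ℕ) (𝓝 (Qu v)) := fun hB v hv => hB.tendsto_at hv
  have hqA : q ∈ A := ⟨s, hQs, hs⟩
  have hAll : ∀ u ∈ S, u ∈ A := by
    intro u hu
    have hP : q ∈ A ↔ u ∈ A := by
      refine Sc.isPreconnected.induction₂ (fun x y => x ∈ A ↔ y ∈ A) (fun x hx => ?_) (fun a b c _ _ _ h1 h2 => h1.trans h2)
        (fun a b _ _ h1 => h1.symm) hq hu
      obtain ⟨t, ht, hk⟩ := key x hx
      refine mem_nhdsWithin_of_mem_nhds ?_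
      filter_upwards [ball_mem_nhds x ht] with y hy
      constructor
      · intro hxA
        obtain ⟨Qu, _, h2, h3⟩ := hk x (mem_ball_self ht) hxA
        exact ⟨Qu y, hlim h2 y hy, h3 y hy⟩
      · intro hyA
        obtain ⟨Qu, _, h2, h3⟩ := hk y hy hyA
        exact ⟨Qu x, hlim h2 x (mem_ball_self ht), h3 x (mem_ball_self ht)⟩
    exact hP.1 hqA
  choose! Q0 hQ0 hQ0g using hAll
  have hloc : ∀ u ∈ S, ∃ t : ℝ, 0 < t ∧ ball u t ⊆ S ∧ DifferentiableOn ℂ Q0 (ball u t) ∧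
      TendstoLocallyUniformlyOn Q Q0 (𝒰 : Filter ℕ) (ball u t) := by
    intro u hu
    obtain ⟨t, ht, hk⟩ := key u hu
    obtain ⟨t1, ht1, ht1s⟩ := Metric.isOpen_iff.1 So u hu
    obtain ⟨Qu, h1, h2, h3⟩ := hk u (mem_ball_self ht) ⟨Q0 u, hQ0 u hu, hQ0g u hu⟩
    have hs1 : ball u (min t t1) ⊆ ball u t := ball_subset_ball (min_le_left _ _)
    have hs2 : ball u (min t t1) ⊆ S := (ball_subset_ball (min_le_right _ _)).trans ht1s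
    have he : EqOn Qu Q0 (ball u (min t t1)) := fun v hv =>
      tendsto_nhds_unique (hlim h2 v (hs1 hv)) (hQ0 v (hs2 hv))
    exact ⟨min t t1, lt_min ht ht1, hs2, (h1.mono hs1).congr fun v hv => (he hv).symm, (h2.mono hs1).congr_right he⟩
  refine ⟨Q0, ?_, ?_, ?_, hQ0g⟩
  · intro u hu
    obtain ⟨t, ht, _, h1, _⟩ := hloc u hu
    exact (h1.differentiableAt (ball_mem_nhds u ht)).differentiableWithinAt
  · intro U hU x hx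
    obtain ⟨t, ht, _, _, h2⟩ := hloc x hx
    obtain ⟨T, hT, hT2⟩ := h2 U hU x (mem_ball_self ht)
    rw [isOpen_ball.nhdsWithin_eq (mem_ball_self ht)] at hT
    exact ⟨T, mem_nhdsWithin_of_mem_nhds hT, hT2⟩
  · exact tendsto_nhds_unique (hQ0 q hq) hQs

/-- lifts over convex sets and their limits -/
theorem llm (h : LT 𝒰 F D P) {S : Set ℂ} (Sc : Convex ℝ S) (So : IsOpen S) {Hn : ℕ → ℂ → ℂ} {H : ℂ → ℂ} {M : ℝ}
    (hHn : ∀ᶠ n in (𝒰 : Filter ℕ), DifferentiableOn ℂ (Hn n) S ∧ ∀ u ∈ S, deriv (Hn n) u ≠ 0 ∧ ‖Hn n u‖ < M ∧ Hn n u ∉ P n)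
    (hH : TendstoLocallyUniformlyOn Hn H (𝒰 : Filter ℕ) S) (hoff : ∀ u ∈ S, H u ∉ Ph 𝒰 P)
    {q s : ℂ} (hq : q ∈ S) (hs : Gd 𝒰 F D P (H q) s) :
    ∃ (Q : ℕ → ℂ → ℂ) (Q0 : ℂ → ℂ), (∀ᶠ n in (𝒰 : Filter ℕ), DifferentiableOn ℂ (Q n) S ∧
      ∀ u ∈ S, Q n u ∈ D n ∧ F n (Q n u) = Hn n u) ∧ DifferentiableOn ℂ Q0 S ∧
      TendstoLocallyUniformlyOn Q Q0 (𝒰 : Filter ℕ) S ∧ Q0 q = s ∧ ∀ u ∈ S, Gd 𝒰 F D P (H u) (Q0 u) := by
  have Hd : DifferentiableOn ℂ H S := hH.differentiableOn (hHn.mono fun n hn => hn.1) So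
  obtain ⟨t, ρ1, ht, hρ1, hd⟩ := data (𝒰 := 𝒰) (P := P) So Hd hoff hq
  obtain ⟨_, _, hdis⟩ := hd q (mem_ball_self ht)
  obtain ⟨G, g, hG, hGu, _, hgd, _, hgw, _⟩ := gb h hs hρ1 hdis
  have hHq : Tendsto (fun n => Hn n q) (𝒰 : Filter ℕ) (𝓝 (H q)) := hH.tendsto_at hq
  have hmem : H q ∈ ball (H q) ρ1 := mem_ball_self hρ1
  have hz : Tendsto (fun n => G n (Hn n q)) (𝒰 : Filter ℕ) (𝓝 s) := by
    have c1 := cc_of hGu hgd.continuousOn hmem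
    rw [isOpen_ball.nhdsWithin_eq hmem, hgw] at c1
    exact c1.comp (tendsto_id.prodMk hHq)
  have e1 : ∀ᶠ n in (𝒰 : Filter ℕ), Hn n q ∈ ball (H q) ρ1 := hHq.eventually (ball_mem_nhds _ hρ1)
  have e2 : ∀ᶠ n in (𝒰 : Filter ℕ), ∃ Qn : ℂ → ℂ, DifferentiableOn ℂ Qn S ∧ Qn q = G n (Hn n q) ∧
      ∀ u ∈ S, Qn u ∈ D n ∧ F n (Qn u) = Hn n u := by
    filter_upwards [h.lift M, hHn, hG, e1] with n h1 h2 h3 h4
    exact h1 S (Hn n) q (G n (Hn n q)) Sc So h2.1 (fun u hu => ⟨(h2.2 u hu).2.1, (h2.2 u hu).2.2⟩) hq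
      (h3.2 _ h4).1 (h3.2 _ h4).2
  obtain ⟨Q, hQ⟩ := e2.choice
  have hQs : Tendsto (fun n => Q n q) (𝒰 : Filter ℕ) (𝓝 s) := by
    refine hz.congr' ?_
    filter_upwards [hQ] with n hn
    exact hn.2.1.symm
  have hQ' : ∀ᶠ n in (𝒰 : Filter ℕ), DifferentiableOn ℂ (Q n) S ∧ ∀ u ∈ S, Q n u ∈ D n ∧ F n (Q n u) = Hn n u :=
    hQ.mono fun n hn => ⟨hn.1, hn.2.2⟩
  obtain ⟨Q0, h1, h2, h3, h4⟩ := llm_of h Sc So (hHn.mono fun n hn => ⟨hn.1, fun u hu => (hn.2 u hu).1⟩) hH hoff hQ' hq hs hQs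
  exact ⟨Q, Q0, hQ', h1, h2, h3, h4⟩

end Pool.Agent.H15.TY
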