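import Pool.Agent.H44.RG.PlD
import Pool.Agent.H44.RR.CNT

/-!
# A rational map of degree `d ≥ 2` has two different critical points on the sphere

`ww_pos`: the Wronskian `W = a' b - a b'` has degree `≥ d - 1 ≥ 1`, so it has a root `c`. If infinity is critical we are done. If not, the
coefficient of `X ^ (2 d - 2)` of `W` is not `0` (`wr_reflect`), and the multiplicity of `c` is `< d` (`mult_lt`, after exchanging `a` and
`b` if `b` vanishes at `c`), so there is a second root. (Compare H44/RG/PLA.)
-/

set_option autoImplicit false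

open Filter Topology Polynomial Metric Set

namespace Pool.Agent.H15.TY

open Pool.Agent.H44.Fatou Pool.Agent.H32.BT Pool.Agent.H79.Eul Pool.Agent.H79.Par
open Pool.Agent.H61.TT Pool.Agent.H44.RR

private theorem coeff_two {P Q : Polynomial ℂ} {e : ℕ} (hP : P.natDegree ≤ e + 1)
    (hQ : Q.natDegree ≤ e + 2) :
    (P * Q).coeff (2 * e + 2) = P.coeff e * Q.coeff (e + 2) + P.coeff (e + 1) * Q.coeff (e + 1) := by
  rw [coeff_mul, Finset.Nat.sum_antidiagonal_eq_sum_range_succ
    (fun i j => P.coeff i * Q.coeff j), Finset.sum_eq_add e (e + 1)]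
  · have e1 : 2 * e + 2 - e = e + 2 := by omega
    have e2 : 2 * e + 2 - (e + 1) = e + 1 := by omega
    rw [e1, e2]
  · omega
  · intro k hk hne
    rcases Nat.lt_or_ge k e with h1 | h1
    · rw [coeff_eq_zero_of_natDegree_lt (p := Q) (by omega), mul_zero]
    · rw [coeff_eq_zero_of_natDegree_lt (p := P) (by omega), zero_mul]
  · intro h
    exact absurd (Finset.mem_range.2 (by omega)) h
  · intro h
    exact absurd (Finset.mem_range.2 (by omega)) h

private theorem wr_reflect {a b : Polynomial ℂ} {e : ℕ} (ha : a.natDegree ≤ e + 2)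
    (hb : b.natDegree ≤ e + 2) :
    (Wr (reflect (e + 2) a) (reflect (e + 2) b)).eval 0 = -(ww a b).coeff (2 * e + 2) := by
  have hA : (derivative a).natDegree ≤ e + 1 := (natDegree_derivative_le a).trans (by omega)
  have hB : (derivative b).natDegree ≤ e + 1 := (natDegree_derivative_le b).trans (by omega)
  have h1 : (ww a b).coeff (2 * e + 2) =
      (derivative a).coeff e * b.coeff (e + 2) + (derivative a).coeff (e + 1) * b.coeff (e + 1) -
      ((derivative b).coeff e * a.coeff (e + 2) +
        (derivative b).coeff (e + 1) * a.coeff (e + 1)) := by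
    unfold ww
    rw [coeff_sub, coeff_two hA hb, mul_comm a, coeff_two hB ha]
  rw [h1, coeff_derivative, coeff_derivative, coeff_derivative, coeff_derivative]
  have h0 : ∀ P : Polynomial ℂ, (reflect (e + 2) P).eval 0 = P.coeff (e + 2) := by
    intro P
    rw [← coeff_zero_eq_eval_zero, coeff_reflect, revAt_zero]
  have h2 : ∀ P : Polynomial ℂ, (derivative (reflect (e + 2) P)).eval 0 = P.coeff (e + 1) := by
    intro P
    rw [← coeff_zero_eq_eval_zero, coeff_derivative, coeff_reflect, revAt_le (by omega)]
    have : e + 2 - (0 + 1) = e + 1 := by omega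
    rw [this]
    simp
  unfold Wr
  rw [eval_sub, eval_mul, eval_mul, h0, h0, h2, h2]
  push_cast
  ring

private theorem mult_le {d : ℕ} {a b : Polynomial ℂ} (h : RatD d a b) {c : ℂ}
    (hb : b.eval c ≠ 0) : rootMultiplicity c (ww a b) < d := by
  obtain ⟨x, hx⟩ : ∃ x, x = a.eval c / b.eval c := ⟨_, rfl⟩
  obtain ⟨F, hF⟩ : ∃ F, F = fib a b x := ⟨_, rfl⟩
  have hF0 : F ≠ 0 := by
    rw [hF]
    exact fib_ne h x
  have hroot : F.IsRoot c := by
    rw [hF, IsRoot.def]
    unfold fib
    rw [eval_sub, eval_mul, eval_C, hx, div_mul_cancel₀ _ hb, sub_self]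
  have hdeg : F.natDegree ≤ d := by
    rw [hF]
    unfold fib
    refine (natDegree_sub_le _ _).trans ?_
    rw [← h.deg]
    exact max_le_max le_rfl (natDegree_C_mul_le x b)
  have he1 : 0 < rootMultiplicity c F := (rootMultiplicity_pos hF0).2 hroot
  have he2 : rootMultiplicity c F ≤ d := by
    have h1 := natDegree_le_of_dvd (pow_rootMultiplicity_dvd F c) hF0
    rw [natDegree_pow, natDegree_X_sub_C, mul_one] at h1
    exact h1.trans hdeg
  have hD0 : derivative F ≠ 0 := by
    intro h0
    have h1 := derivative_eq_zero.1 h0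
    rw [natDegree_eq_zero] at h1
    obtain ⟨t, ht⟩ := h1
    rw [← ht, IsRoot.def, eval_C] at hroot
    rw [hroot, C_0] at ht
    exact hF0 ht.symm
  have hW : ww a b = derivative F * b - F * derivative b := by
    rw [hF]
    unfold ww fib
    rw [derivative_sub, derivative_C_mul]
    ring
  have hcopr : IsCoprime ((X - C c) ^ rootMultiplicity c F) b := by
    apply IsCoprime.pow_left
    rw [Irreducible.coprime_iff_not_dvd (irreducible_X_sub_C c), dvd_iff_isRoot]
    exact hb
  by_contra hcon
  push Not at hcon
  have h1 : (X - C c) ^ rootMultiplicity c F ∣ ww a b :=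
    (le_rootMultiplicity_iff (ww_ne h)).1 (he2.trans hcon)
  have h2 : (X - C c) ^ rootMultiplicity c F ∣ derivative F * b := by
    have h3 : derivative F * b = ww a b + F * derivative b := by
      rw [hW]
      ring
    rw [h3]
    exact dvd_add h1 ((pow_rootMultiplicity_dvd F c).mul_right _)
  have h4 := hcopr.dvd_of_dvd_mul_right h2
  have h5 := (le_rootMultiplicity_iff hD0).2 h4
  rw [derivative_rootMultiplicity_of_root hroot] at h5
  omega

private theorem ww_swap (a b : Polynomial ℂ) : ww b a = -ww a b := by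
  unfold ww
  ring

private theorem mult_lt {d : ℕ} {a b : Polynomial ℂ} (h : RatD d a b) (c : ℂ) :
    rootMultiplicity c (ww a b) < d := by
  by_cases hb : b.eval c = 0
  · have ha : a.eval c ≠ 0 := by
      intro ha
      obtain ⟨u, v, huv⟩ := h.cop
      have := congrArg (fun p => p.eval c) huv
      simp [ha, hb] at this
    have h' : RatD d b a := ⟨h.hd, h.cop.symm, by rw [max_comm]; exact h.deg⟩
    have h1 := mult_le h' ha
    rw [ww_swap, ← neg_one_mul, ← C_1, ← C_neg, rootMultiplicity_mul (by
      rw [C_neg, C_1, neg_one_mul, neg_ne_zero]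
      exact ww_ne h), rootMultiplicity_C, zero_add] at h1
    exact h1
  · exact mult_le h hb

private theorem coeff_ww {A B : Polynomial ℂ} (h : 1 ≤ A.natDegree + B.natDegree) :
    (ww A B).coeff (A.natDegree + B.natDegree - 1) =
      ((A.natDegree : ℂ) - B.natDegree) * (A.leadingCoeff * B.leadingCoeff) := by
  have key : ∀ A B : Polynomial ℂ, 1 ≤ A.natDegree + B.natDegree →
      (derivative A * B).coeff (A.natDegree + B.natDegree - 1) =
        (A.natDegree : ℂ) * (A.leadingCoeff * B.leadingCoeff) := by
    intro A B h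
    rcases Nat.eq_zero_or_pos A.natDegree with h0 | h0
    · have : derivative A = 0 := by
        rw [natDegree_eq_zero] at h0
        obtain ⟨t, ht⟩ := h0
        rw [← ht, derivative_C]
      rw [this, h0]
      simp
    · have e : A.natDegree + B.natDegree - 1 = (A.natDegree - 1) + B.natDegree := by omega
      rw [e, coeff_mul_add_eq_of_natDegree_le (natDegree_derivative_le A) le_rfl, coeff_derivative]
      have e2 : A.natDegree - 1 + 1 = A.natDegree := by omega
      rw [e2]
      have e3 : ((A.natDegree - 1 : ℕ) : ℂ) + 1 = A.natDegree := by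
        exact_mod_cast e2
      rw [e3]
      simp only [leadingCoeff]
      ring
  have h1 := key A B h
  have h2 := key B A (by omega)
  unfold ww
  rw [coeff_sub, h1, mul_comm A, show A.natDegree + B.natDegree = B.natDegree + A.natDegree from add_comm _ _, h2]
  ring

private theorem ww_deg_ge {A B : Polynomial ℂ} (hA : A ≠ 0) (hB : B ≠ 0) (hne : A.natDegree ≠ B.natDegree) :
    A.natDegree + B.natDegree - 1 ≤ (ww A B).natDegree := by
  apply le_natDegree_of_ne_zero
  rw [coeff_ww (by omega)]
  refine mul_ne_zero ?_ (mul_ne_zero (leadingCoeff_ne_zero.2 hA) (leadingCoeff_ne_zero.2 hB))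
  rw [sub_ne_zero]
  exact_mod_cast hne

theorem ww_pos {d : ℕ} {a b : Polynomial ℂ} (h : RatD d a b) : 1 ≤ (ww a b).natDegree := by
  have hd := h.hd
  have hdeg := h.deg
  have ha : a ≠ 0 := by
    rintro rfl
    have h1 := isCoprime_zero_left.1 h.cop
    have h2 := natDegree_eq_zero_of_isUnit h1
    rw [natDegree_zero, h2, max_self] at hdeg
    omega
  have hb : b ≠ 0 := by
    rintro rfl
    have h1 := isCoprime_zero_right.1 h.cop
    have h2 := natDegree_eq_zero_of_isUnit h1
    rw [natDegree_zero, h2, max_self] at hdeg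
    omega
  by_cases hne : a.natDegree = b.natDegree
  · have hbd : b.natDegree = d := by rw [← hdeg, hne, max_self]
    obtain ⟨t, ht⟩ : ∃ t : ℂ, t = a.leadingCoeff / b.leadingCoeff := ⟨_, rfl⟩
    have hlb : b.leadingCoeff ≠ 0 := leadingCoeff_ne_zero.2 hb
    have hla : a.leadingCoeff ≠ 0 := leadingCoeff_ne_zero.2 ha
    have ht0 : t ≠ 0 := by rw [ht]; exact div_ne_zero hla hlb
    obtain ⟨a1, ha1⟩ : ∃ a1, a1 = a - C t * b := ⟨_, rfl⟩
    have hww : ww a b = ww a1 b := by
      rw [ha1]
      unfold ww
      rw [derivative_sub, derivative_C_mul]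
      ring
    have h10 : a1 ≠ 0 := by
      intro h0
      apply ww_ne h
      rw [hww, h0]
      unfold ww
      simp
    have hlt : a1.natDegree < b.natDegree := by
      have h1 : a1.degree < a.degree := by
        rw [ha1]
        refine degree_sub_lt ?_ ha ?_
        · rw [degree_C_mul ht0, degree_eq_natDegree ha, degree_eq_natDegree hb, hne]
        · rw [leadingCoeff_mul, leadingCoeff_C, ht, div_mul_cancel₀ _ hlb]
      have h2 := (natDegree_lt_natDegree_iff h10).2 h1
      omega
    rw [hww]
    have := ww_deg_ge h10 hb hlt.ne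
    omega
  · have h1 := ww_deg_ge ha hb hne
    have h2 : 2 ≤ max a.natDegree b.natDegree := by omega
    have h3 := max_le_iff.1 (le_refl (max a.natDegree b.natDegree))
    rcases max_choice a.natDegree b.natDegree with h4 | h4 <;> omega

/-- two critical points -/
theorem two_crit_gen {d : ℕ} {a b : Polynomial ℂ} (hR : RatD d a b) :
    ∃ c c' : OnePoint ℂ, c ≠ c' ∧ IsCrit (rat a b) c ∧ IsCrit (rat a b) c' := by
  have hd := hR.hd
  have hmax : 1 ≤ max a.natDegree b.natDegree := by
    rw [hR.deg]
    omega
  obtain ⟨c, hc⟩ := IsAlgClosed.exists_root (ww a b) (by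
    have h1 := ww_pos hR
    rw [degree_eq_natDegree (ww_ne hR)]
    intro h0
    have : (ww a b).natDegree = 0 := by exact_mod_cast h0
    omega)
  have hcrit : IsCrit (rat a b) (c : OnePoint ℂ) := crit_of_wr hR.cop hmax (c := c) hc
  by_cases hinf : IsCrit (rat a b) OnePoint.infty
  · exact ⟨c, OnePoint.infty, OnePoint.coe_ne_infty c, hcrit, hinf⟩
  have hmult := mult_lt hR c
  obtain ⟨e, he⟩ : ∃ e, d = e + 2 := ⟨d - 2, by omega⟩
  have hcoef : (ww a b).coeff (2 * e + 2) ≠ 0 := by
    intro h1
    apply hinf
    have hdg : Pool.Agent.H44.Fatou.dg a b = e + 2 := by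
      unfold Pool.Agent.H44.Fatou.dg
      rw [hR.deg, he]
    have hA : a.natDegree ≤ e + 2 := by
      rw [← he, ← hR.deg]
      exact le_max_left _ _
    have hB : b.natDegree ≤ e + 2 := by
      rw [← he, ← hR.deg]
      exact le_max_right _ _
    exact crit_infty_of_wr hR.cop hmax (by
      rw [hdg, wr_reflect hA hB, h1, neg_zero])
  have hle := le_natDegree_of_ne_zero hcoef
  by_contra hcon
  push Not at hcon
  have hall : ∀ z ∈ (ww a b).roots, c = z := by
    intro z hz
    rw [mem_roots (ww_ne hR)] at hz
    by_contra hne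
    exact hcon c z (by
      intro h
      exact hne (OnePoint.coe_injective h)) hcrit (crit_of_wr hR.cop hmax (c := z) hz)
  have hcount : rootMultiplicity c (ww a b) = (ww a b).natDegree := by
    rw [← count_roots, Multiset.count_eq_card.2 hall]
    exact (IsAlgClosed.splits (ww a b)).natDegree_eq_card_roots.symm
  omega

end Pool.Agent.H15.TY
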